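import Pool.Agent.Helper264.NT.NearExp

/-!
# The logarithm of `π s` at all algebraic points near almost every point

The question is whether `log π` is transcendental: the number `log (π s)` for `s = 1`.

There is one set `E` of complex numbers of Hausdorff dimension `0` such that for all complex `z` outside of `E` in the slit plane
(the plane without the real numbers `≤ 0`), all number fields `K ⊂ ℂ`, all degrees `d`, all `A` and ALL exponents `w > 0`
(arbitrarily small) there are `B` and `T₀` such that for all `T ≥ T₀`, at ALL numbers `s` in `K` of height at most `T` with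
`|s - z| ≤ T ^ (-w)`, the numbers `π` and `log (π s)` have no relation over `K` of partial degrees at most `d` and height at most
`T ^ A`, not even an approximate one: all values are greater than `T ^ (-B)`. In particular `log (π s) = log π + log s` is not
algebraic of degree at most `d` and height at most `T ^ A` over `K(π)`. For `w < 1` there are many such rational `s` for all large
`T`. The result below is for several points `s_1, …, s_n`, outside of a set in `ℂ ^ n` of dimension at most `2 n - 2`.

Proof: the exceptional tuples lie on `C T ^ ε` hypersurfaces of degree at most `D` (`Pool.Agent.Y771.KF.stdK` of helper771 and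
helper124), and the points near such hypersurfaces form a set of small dimension (uniform coverings of the zeros of polynomials
of bounded degree, `Pool.Agent.Helper264.NT.mainK`).
-/

set_option autoImplicit false

open Height
open scoped ENNReal

namespace Pool.Agent.Results.MP_e33f53_nt.LogNearEveryPoint

/-- `log (π t)`, principal branch -/
noncomputable def logpi (t : ℂ) : ℂ := Complex.log ((Real.pi : ℂ) * t)

lemma pi_ne : (Real.pi : ℂ) ≠ 0 := Complex.ofReal_ne_zero.2 Real.pi_pos.ne'

lemma logpi_an : AnalyticOnNhd ℂ logpi Complex.slitPlane := by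
  intro t ht
  refine (analyticAt_const.mul analyticAt_id).clog ?_
  change (Real.pi : ℂ) * t ∈ Complex.slitPlane
  rw [Complex.mem_slitPlane_iff] at ht ⊢
  rw [Complex.re_ofReal_mul, Complex.im_ofReal_mul]
  rcases ht with h | h
  · exact Or.inl (mul_pos Real.pi_pos h)
  · exact Or.inr (mul_ne_zero Real.pi_pos.ne' h)

lemma slit_preconn : IsPreconnected Complex.slitPlane :=
  (Complex.starConvex_one_slitPlane.isPathConnected Complex.one_mem_slitPlane).isConnected.isPreconnected

/-- scaling and exchange of the two variables -/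
noncomputable def sw (o : Option Unit) : MvPolynomial (Option Unit) ℂ :=
  o.elim (MvPolynomial.C (Real.pi : ℂ)⁻¹ * MvPolynomial.X (some ())) fun _ => MvPolynomial.X none

/-- the inverse -/
noncomputable def sw' (o : Option Unit) : MvPolynomial (Option Unit) ℂ :=
  o.elim (MvPolynomial.X (some ())) fun _ => MvPolynomial.C (Real.pi : ℂ) * MvPolynomial.X none

lemma logpi_indep : Pool.Agent.Y771.KF.AIndepS (fun _ : Unit => logpi) Complex.slitPlane := by
  intro P hP
  have h0 : MvPolynomial.bind₁ sw P = 0 := by
    refine Pool.Agent.Helper264.NT.exp_indep (fun _ : Unit => (1 : ℝ)) ?_ _ fun m => ?_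
    · exact LinearIndependent.of_subsingleton () one_ne_zero
    · have h1 : MvPolynomial.eval (fun o : Option Unit => o.elim (m : ℂ) fun _ => Complex.exp (((1 : ℝ) : ℂ) * m))
          (MvPolynomial.bind₁ sw P) = MvPolynomial.eval (fun i => MvPolynomial.eval
          (fun o : Option Unit => o.elim (m : ℂ) fun _ => Complex.exp (((1 : ℝ) : ℂ) * m)) (sw i)) P :=
        MvPolynomial.eval₂Hom_bind₁ _ _ _ _
      rw [h1]
      have h2 : (Real.pi : ℂ)⁻¹ * Complex.exp m ∈ Complex.slitPlane := by
        have h3 : (Real.pi : ℂ)⁻¹ * Complex.exp m = ((Real.pi⁻¹ * Real.exp m : ℝ) : ℂ) := by push_cast; rfl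
        rw [h3, Complex.ofReal_mem_slitPlane]
        positivity
      have h4 := hP _ h2
      rw [← h4]
      congr 2
      funext o
      cases o with
      | none => simp [sw]
      | some u =>
        have h5 : logpi ((Real.pi : ℂ)⁻¹ * Complex.exp m) = m := by
          unfold logpi
          rw [← mul_assoc, mul_inv_cancel₀ pi_ne, one_mul]
          have h6 : Complex.exp m = ((Real.exp m : ℝ) : ℂ) := by push_cast; rfl
          rw [h6, ← Complex.ofReal_log (Real.exp_pos _).le, Real.log_exp]
          push_cast
          rfl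
        simp [sw, h5]
  have h1 : MvPolynomial.bind₁ sw' (MvPolynomial.bind₁ sw P) = P := by
    rw [MvPolynomial.bind₁_bind₁]
    have h2 : (fun i => MvPolynomial.bind₁ sw' (sw i)) = MvPolynomial.X := by
      funext o
      cases o with
      | none =>
        simp only [sw, Option.elim, map_mul, MvPolynomial.bind₁_X_right]
        rw [MvPolynomial.bind₁, MvPolynomial.algHom_C]
        simp only [sw', Option.elim]
        rw [← mul_assoc, MvPolynomial.algebraMap_eq, ← MvPolynomial.C_mul, inv_mul_cancel₀ pi_ne, MvPolynomial.C_1, one_mul]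
      | some u => simp [sw, sw']
    rw [h2, MvPolynomial.bind₁_X_left]
    rfl
  rw [← h1, h0, map_zero]

/-- the numbers `π, log (π s_1), …, log (π s_n)` -/
noncomputable def numbers {n : ℕ} (s : Fin n → ℂ) (x : Option (Fin n)) : ℂ := x.elim (Real.pi : ℂ) fun j => logpi (s j)

/-- every nonzero polynomial in `n + 1` variables with coefficients in `K` of height at most `T ^ A`, of degree at most `d` in
each variable, takes at the numbers `π, log (π s_1), …, log (π s_n)` a value of absolute value greater than `T ^ (-B)` -/
def Measure {n : ℕ} (K : IntermediateField ℚ ℂ) [NumberField K] (d : ℕ) (A B T : ℝ) (s : Fin n → K) : Prop :=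
  ∀ P : MvPolynomial (Option (Fin n)) K, P ≠ 0 → (∀ i, P.degreeOf i ≤ d) → (∀ e, mulHeight₁ (P.coeff e) ≤ T ^ A) →
    T ^ (-B) < ‖MvPolynomial.eval₂ (algebraMap K ℂ) (numbers fun j => (s j : ℂ)) P‖

/-- the renaming of the variables -/
def ren (n : ℕ) : Option (Fin n) ≃ (Fin n × Unit) ⊕ Unit where
  toFun o := o.elim (Sum.inr ()) fun j => Sum.inl (j, ())
  invFun := Sum.elim (fun c => some c.1) fun _ => none
  left_inv o := by cases o <;> rfl
  right_inv o := by rcases o with ⟨j, u⟩ | u <;> rfl

/-- **Theorem.** Let `n ≥ 1`. There is a subset `E` of `ℂ ^ n` of Hausdorff dimension at most `2 (n - 1)` such that for all `z`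
outside of `E` whose coordinates are in the slit plane, all number fields `K ⊂ ℂ`, all `d`, `A` and `w > 0` there are `B` and `T₀`
such that for all `T ≥ T₀` and all `n`-tuples `s` of elements of `K` of height at most `T` with `|s_j - z_j| ≤ T ^ (-w)` the
numbers `π, log (π s_1), …, log (π s_n)` have the property `Measure`. -/
theorem result (n : ℕ) (hn : 1 ≤ n) :
    ∃ E : Set (Fin n → ℂ), dimH E ≤ ((2 * (n - 1) : ℕ) : ℝ≥0∞) ∧ ∀ z ∉ E, (∀ j, z j ∈ Complex.slitPlane) →
      ∀ (K : IntermediateField ℚ ℂ) [NumberField K] (d : ℕ) (A w : ℝ), 0 < w → ∃ B T₀ : ℝ, ∀ T ≥ T₀,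
        ∀ s : Fin n → K, (∀ j, mulHeight₁ (s j) ≤ T ∧ ‖(s j : ℂ) - z j‖ ≤ T ^ (-w)) → Measure K d A B T s := by
  classical
  have hnn : Nonempty (Fin n) := ⟨⟨0, hn⟩⟩
  obtain ⟨E, hE1, hE2⟩ := Pool.Agent.Helper264.NT.mainK (𝕜 := ℂ) (X := Fin n) (RingHom.id ℂ) (fun _ => rfl)
    (fun _ (_ : Unit) => logpi) (fun _ : Unit => Real.pi) (fun _ => Complex.slitPlane)
    (fun _ => Complex.isOpen_slitPlane) (fun _ => slit_preconn)
    (fun _ _ => logpi_an) (fun _ => logpi_indep) Pool.Agent.Y124.goodXi_pi
  refine ⟨E, by simpa using hE1, fun z hz hz1 K _ d A w hw => ?_⟩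
  obtain ⟨B, T0, h⟩ := hE2 z hz hz1 K d A w hw
  refine ⟨B, T0, fun T hT s hs => ?_⟩
  refine Pool.Agent.Helper264.NT.norel_rename (ren n) (algebraMap K ℂ) (fun _ (_ : Unit) => logpi)
    (fun _ : Unit => Real.pi) d A B T s (h T hT s hs) (fun k => (hs k).1) _ ?_
  intro o
  cases o <;> rfl

end Pool.Agent.Results.MP_e33f53_nt.LogNearEveryPoint
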